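import Pool.Agent.X216.CN.Upper

open Finset

namespace Pool.Agent.X216.CN

lemma arctan_lb {a : ℝ} (ha : 0 ≤ a) :
    a - a ^ 3 / 3 + a ^ 5 / 5 - a ^ 7 / 7 ≤ Real.arctan a := by
  let g : ℝ → ℝ := fun a => Real.arctan a - (a - a ^ 3 / 3 + a ^ 5 / 5 - a ^ 7 / 7)
  have hg : ∀ b, HasDerivAt g (1 / (1 + b ^ 2) - (1 - b ^ 2 + b ^ 4 - b ^ 6)) b := by
    intro b
    have h3 : HasDerivAt (fun a : ℝ => a ^ 3 / 3) (b ^ 2) b := by
      have := (hasDerivAt_pow 3 b).div_const 3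
      have e : (((3 : ℕ) : ℝ)) * b ^ (3 - 1) / 3 = b ^ 2 := by
        norm_num
      rw [e] at this
      exact this
    have h5 : HasDerivAt (fun a : ℝ => a ^ 5 / 5) (b ^ 4) b := by
      have := (hasDerivAt_pow 5 b).div_const 5
      have e : (((5 : ℕ) : ℝ)) * b ^ (5 - 1) / 5 = b ^ 4 := by
        norm_num
      rw [e] at this
      exact this
    have h7 : HasDerivAt (fun a : ℝ => a ^ 7 / 7) (b ^ 6) b := by
      have := (hasDerivAt_pow 7 b).div_const 7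
      have e : (((7 : ℕ) : ℝ)) * b ^ (7 - 1) / 7 = b ^ 6 := by
        norm_num
      rw [e] at this
      exact this
    exact (Real.hasDerivAt_arctan b).sub ((((hasDerivAt_id b).sub h3).add h5).sub h7)
  have hmono : MonotoneOn g (Set.Ici 0) := by
    apply monotoneOn_of_deriv_nonneg (convex_Ici 0)
    · intro b _
      exact (hg b).continuousAt.continuousWithinAt
    · intro b _
      exact (hg b).differentiableAt.differentiableWithinAt
    · intro b _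
      rw [(hg b).deriv]
      have h0 : (0 : ℝ) < 1 + b ^ 2 := by positivity
      have : 1 / (1 + b ^ 2) - (1 - b ^ 2 + b ^ 4 - b ^ 6) = b ^ 8 / (1 + b ^ 2) := by
        field_simp
        ring
      rw [this]
      positivity
  have := hmono (Set.mem_Ici.2 le_rfl) (Set.mem_Ici.2 ha) ha
  simp only [g] at this
  norm_num at this
  linarith

lemma log_lb {b : ℝ} (hb : 0 ≤ b) : b - b ^ 2 / 2 ≤ Real.log (1 + b) := by
  have h := Real.le_log_one_add_of_nonneg hb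
  refine le_trans ?_ h
  rw [le_div_iff₀ (by linarith)]
  nlinarith [mul_nonneg hb (mul_nonneg hb hb)]

lemma sum_x2 (N : ℕ) : ∑ j ∈ range N, x j ^ 2 = (N : ℝ) * (4 * N ^ 2 - 1) / 12 := by
  induction N with
  | zero => simp
  | succ N ih => rw [sum_range_succ, ih]; unfold x; push_cast; ring

lemma sum_x3 (N : ℕ) : ∑ j ∈ range N, x j ^ 3 = (N : ℝ) ^ 2 * (2 * N ^ 2 - 1) / 8 := by
  induction N with
  | zero => simp
  | succ N ih => rw [sum_range_succ, ih]; unfold x; push_cast; ring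

lemma sum_x4 (N : ℕ) : ∑ j ∈ range N, x j ^ 4 ≤ (N : ℝ) ^ 5 / 5 := by
  induction N with
  | zero => simp
  | succ N ih =>
    rw [sum_range_succ]
    unfold x at *
    push_cast
    have hN : (0 : ℝ) ≤ N := by positivity
    nlinarith [hN, mul_nonneg hN hN]

lemma sum_x5 (N : ℕ) :
    ∑ j ∈ range N, x j ^ 5 = ((N : ℝ) ^ 6 - 5 / 4 * N ^ 4 + 7 / 16 * N ^ 2) / 6 := by
  induction N with
  | zero => simp
  | succ N ih => rw [sum_range_succ, ih]; unfold x; push_cast; ring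

/-- one variable inequality -/
lemma poly1 {y : ℝ} (hy : 0 < y) (hy' : y < 1 / 100) :
    1 < (1 - 2 / 3 * y + 16 / 15 * y ^ 2 - 64 / 21 * y ^ 3) *
      (1 + (2 / 3 * y - 4 / 5 * y ^ 2) + (2 / 3 * y - 4 / 5 * y ^ 2) ^ 2 / 2) := by
  have h : (1 - 2 / 3 * y + 16 / 15 * y ^ 2 - 64 / 21 * y ^ 3) *
      (1 + (2 / 3 * y - 4 / 5 * y ^ 2) + (2 / 3 * y - 4 / 5 * y ^ 2) ^ 2 / 2) - 1
      = y ^ 2 * (2 / 45 + y * (-(64 / 21) + 16 / 15 * (2 / 3) - 2 / 3 * (2 / 9 - 4 / 5) - 8 / 15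
        + y * (8 / 25 + 2 / 3 * (8 / 15) + 16 / 15 * (2 / 9 - 4 / 5) - 64 / 21 * (2 / 3)
        + y * (- (2 / 3) * (8 / 25) - 16 / 15 * (8 / 15) - 64 / 21 * (2 / 9 - 4 / 5)
        + y * (16 / 15 * (8 / 25) + 64 / 21 * (8 / 15) - y * (64 / 21 * (8 / 25))))))) := by
    ring
  have h2 : 0 < 2 / 45 + y * (-(64 / 21) + 16 / 15 * (2 / 3) - 2 / 3 * (2 / 9 - 4 / 5) - 8 / 15
        + y * (8 / 25 + 2 / 3 * (8 / 15) + 16 / 15 * (2 / 9 - 4 / 5) - 64 / 21 * (2 / 3)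
        + y * (- (2 / 3) * (8 / 25) - 16 / 15 * (8 / 15) - 64 / 21 * (2 / 9 - 4 / 5)
        + y * (16 / 15 * (8 / 25) + 64 / 21 * (8 / 15) - y * (64 / 21 * (8 / 25)))))) := by
    have b1 : -2 ≤ 16 / 15 * (8 / 25) + 64 / 21 * (8 / 15) - y * (64 / 21 * (8 / 25)) := by
      nlinarith
    have b2 : -2 ≤ - (2 / 3) * (8 / 25) - 16 / 15 * (8 / 15) - 64 / 21 * (2 / 9 - 4 / 5)
        + y * (16 / 15 * (8 / 25) + 64 / 21 * (8 / 15) - y * (64 / 21 * (8 / 25))) := by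
      nlinarith
    have b3 : -3 ≤ 8 / 25 + 2 / 3 * (8 / 15) + 16 / 15 * (2 / 9 - 4 / 5) - 64 / 21 * (2 / 3)
        + y * (- (2 / 3) * (8 / 25) - 16 / 15 * (8 / 15) - 64 / 21 * (2 / 9 - 4 / 5)
        + y * (16 / 15 * (8 / 25) + 64 / 21 * (8 / 15) - y * (64 / 21 * (8 / 25)))) := by
      nlinarith
    have b4 : -(26 / 10) ≤ -(64 / 21) + 16 / 15 * (2 / 3) - 2 / 3 * (2 / 9 - 4 / 5) - 8 / 15
        + y * (8 / 25 + 2 / 3 * (8 / 15) + 16 / 15 * (2 / 9 - 4 / 5) - 64 / 21 * (2 / 3)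
        + y * (- (2 / 3) * (8 / 25) - 16 / 15 * (8 / 15) - 64 / 21 * (2 / 9 - 4 / 5)
        + y * (16 / 15 * (8 / 25) + 64 / 21 * (8 / 15) - y * (64 / 21 * (8 / 25))))) := by
      nlinarith
    nlinarith
  have := mul_pos (pow_pos hy 2) h2
  linarith

lemma poly2 {y v : ℝ} (hy : 0 < y) (hy' : y < 1 / 100) (hv : 0 ≤ v) (hv' : v ≤ 1 / 256) :
    1 < (1 - 2 / 3 * y + 16 / 15 * y ^ 2 - 64 / 21 * y ^ 3 + v * y / 12 - v * y ^ 2 / 3) *
      (1 + (2 / 3 * y - v * y / 24 - 4 / 5 * y ^ 2) +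
        (2 / 3 * y - v * y / 24 - 4 / 5 * y ^ 2) ^ 2 / 2) := by
  have h1 := poly1 hy hy'
  set A := 1 - 2 / 3 * y + 16 / 15 * y ^ 2 - 64 / 21 * y ^ 3 with hA
  set L0 := 2 / 3 * y - 4 / 5 * y ^ 2 with hL0
  set B := v * y / 12 - v * y ^ 2 / 3 with hB
  set w := v * y / 24 with hw
  have hvy : 0 ≤ v * y := mul_nonneg hv hy.le
  have hB1 : 2 / 25 * (v * y) ≤ B := by
    rw [hB]; nlinarith
  have hB2 : B ≤ v * y / 12 := by
    rw [hB]; nlinarith [mul_nonneg hvy hy.le]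
  have hAB : A + B ≤ 1 := by
    rw [hA]
    have : v * y ≤ 1 / 256 * y := by nlinarith
    nlinarith [pow_pos hy 3, pow_pos hy 2]
  have hA0 : 0 ≤ A := by
    rw [hA]; nlinarith [pow_pos hy 3, pow_pos hy 2]
  have hL00 : 0 ≤ L0 := by rw [hL0]; nlinarith
  have hL01 : L0 ≤ 1 / 100 := by rw [hL0]; nlinarith
  have hw0 : 0 ≤ w := by rw [hw]; positivity
  have e1 : 1 - 2 / 3 * y + 16 / 15 * y ^ 2 - 64 / 21 * y ^ 3 + v * y / 12 - v * y ^ 2 / 3
    = A + B := by rw [hA, hB]; ring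
  have e2 : 2 / 3 * y - v * y / 24 - 4 / 5 * y ^ 2 = L0 - w := by rw [hL0, hw]; ring
  have e3 : A + v * y / 12 - v * y ^ 2 / 3 = A + B := by rw [hB]; ring
  rw [e3, e2]
  have hB0 : 0 ≤ B := le_trans (by positivity) hB1
  have h2 : 1 + L0 + L0 ^ 2 / 2 - w * (1 + L0) ≤ 1 + (L0 - w) + (L0 - w) ^ 2 / 2 := by
    nlinarith [sq_nonneg w]
  have h3 : (A + B) * (1 + L0 + L0 ^ 2 / 2 - w * (1 + L0)) ≤
      (A + B) * (1 + (L0 - w) + (L0 - w) ^ 2 / 2) :=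
    mul_le_mul_of_nonneg_left h2 (by linarith)
  refine lt_of_lt_of_le ?_ h3
  have h4 : (A + B) * (w * (1 + L0)) ≤ 1 * (w * (1 + L0)) :=
    mul_le_mul_of_nonneg_right hAB (by positivity)
  have h5 : w * (1 + L0) ≤ v * y / 24 * (101 / 100) := by
    rw [hw]
    apply mul_le_mul_of_nonneg_left _ (by positivity)
    linarith
  have h6 : B ≤ B * (1 + L0 + L0 ^ 2 / 2) := by
    nlinarith [sq_nonneg L0, mul_nonneg hB0 hL00, mul_nonneg hB0 (sq_nonneg L0)]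
  have e5 : (A + B) * (1 + L0 + L0 ^ 2 / 2 - w * (1 + L0)) =
      A * (1 + L0 + L0 ^ 2 / 2) + B * (1 + L0 + L0 ^ 2 / 2) - (A + B) * (w * (1 + L0)) := by
    ring
  rw [e5]
  linarith

lemma m_mono (n : ℕ) {s t : ℝ} (h : s ≤ t) : m n s ≤ m n t := by
  unfold m
  apply div_le_div_of_nonneg_right _ (by positivity)
  apply sum_le_sum
  intro j _
  exact Real.arctan_mono (mul_le_mul_of_nonneg_left h (x_pos j).le)

/-- lower bound of the mean of the angles -/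
lemma m_lb {n : ℕ} (hn : 1 ≤ n) {t : ℝ} (ht : 0 < t) (v : ℝ) (hv : v = 1 / (n : ℝ) ^ 2)
    (h1 : n * t ≤ 1 / 2) :
    (n * t) * (1 - 2 / 3 * (n * t) ^ 2 + 16 / 15 * ((n * t) ^ 2) ^ 2
      - 64 / 21 * ((n * t) ^ 2) ^ 3 + v * (n * t) ^ 2 / 12
      - v * ((n * t) ^ 2) ^ 2 / 3) ≤ m n t := by
  have hn' : (0 : ℝ) < n := by exact_mod_cast hn
  have hn1 : (1 : ℝ) ≤ n := by exact_mod_cast hn
  set a := (n : ℝ) * t with ha
  have ha0 : 0 < a := by positivity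
  have hx : ∀ j ∈ range (2 * n), x j * t ≤ 2 * a := by
    intro j hj
    rw [mem_range] at hj
    have : (j : ℝ) + 1 ≤ 2 * n := by exact_mod_cast hj
    rw [ha, ← mul_assoc]
    apply mul_le_mul_of_nonneg_right _ ht.le
    unfold x
    linarith
  have hterm : ∀ j ∈ range (2 * n), x j * t - (x j * t) ^ 3 / 3
      + (1 / 5 - 4 * a ^ 2 / 7) * (x j * t) ^ 5 ≤ Real.arctan (x j * t) := by
    intro j hj
    have hp : 0 < x j * t := mul_pos (x_pos j) ht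
    refine le_trans ?_ (arctan_lb hp.le)
    have h2 : (x j * t) ^ 2 ≤ (2 * a) ^ 2 := pow_le_pow_left₀ hp.le (hx j hj) 2
    have h3 : (x j * t) ^ 5 * (x j * t) ^ 2 ≤ (x j * t) ^ 5 * (2 * a) ^ 2 :=
      mul_le_mul_of_nonneg_left h2 (by positivity)
    nlinarith
  have hs := sum_le_sum hterm
  rw [sum_add_distrib, sum_sub_distrib, ← mul_sum] at hs
  have e1 : ∑ j ∈ range (2 * n), x j * t = 2 * n * a := by
    rw [← sum_mul, sum_x]; push_cast; rw [ha]; ring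
  have e3 : ∑ j ∈ range (2 * n), (x j * t) ^ 3 / 3 =
      2 * n * (a ^ 3 * (2 / 3) - v * a ^ 3 / 12) := by
    have : ∀ j ∈ range (2 * n), (x j * t) ^ 3 / 3 = x j ^ 3 * (t ^ 3 / 3) := by
      intro j _; ring
    rw [sum_congr rfl this, ← sum_mul, sum_x3]
    push_cast
    rw [ha, hv]
    field_simp
    ring
  have e5 : ∑ j ∈ range (2 * n), (x j * t) ^ 5 =
      2 * n * (a ^ 5 * (16 / 3) - v * a ^ 5 * (5 / 3) + 7 / 48 * v ^ 2 * a ^ 5) := by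
    have : ∀ j ∈ range (2 * n), (x j * t) ^ 5 = x j ^ 5 * (t ^ 5) := by
      intro j _; ring
    rw [sum_congr rfl this, ← sum_mul, sum_x5]
    push_cast
    rw [ha, hv]
    field_simp
    ring
  rw [e1, e3, e5] at hs
  unfold m
  rw [le_div_iff₀ (by positivity)]
  refine le_trans ?_ hs
  have hv0 : 0 ≤ v := by rw [hv]; positivity
  have hc : 0 ≤ 1 / 5 - 4 * a ^ 2 / 7 := by nlinarith
  have hgoal : a * (1 - 2 / 3 * a ^ 2 + 16 / 15 * (a ^ 2) ^ 2 - 64 / 21 * (a ^ 2) ^ 3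
      + v * a ^ 2 / 12 - v * (a ^ 2) ^ 2 / 3) ≤ a - (a ^ 3 * (2 / 3) - v * a ^ 3 / 12)
      + (1 / 5 - 4 * a ^ 2 / 7) * (a ^ 5 * (16 / 3) - v * a ^ 5 * (5 / 3)
        + 7 / 48 * v ^ 2 * a ^ 5) := by
    have h1 : 0 ≤ (1 / 5 - 4 * a ^ 2 / 7) * (7 / 48 * v ^ 2 * a ^ 5) := by positivity
    have h2 : 0 ≤ 4 * a ^ 2 / 7 * (v * a ^ 5 * (5 / 3)) := by positivity
    nlinarith
  calc _ = 2 * n * (a * (1 - 2 / 3 * a ^ 2 + 16 / 15 * (a ^ 2) ^ 2 - 64 / 21 * (a ^ 2) ^ 3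
      + v * a ^ 2 / 12 - v * (a ^ 2) ^ 2 / 3)) := by ring
    _ ≤ 2 * n * (a - (a ^ 3 * (2 / 3) - v * a ^ 3 / 12)
      + (1 / 5 - 4 * a ^ 2 / 7) * (a ^ 5 * (16 / 3) - v * a ^ 5 * (5 / 3)
        + 7 / 48 * v ^ 2 * a ^ 5)) := mul_le_mul_of_nonneg_left hgoal (by positivity)
    _ = _ := by ring

lemma Lg_lb {n : ℕ} (hn : 1 ≤ n) {t : ℝ} (v : ℝ) (hv : v = 1 / (n : ℝ) ^ 2) :
    2 / 3 * (n * t) ^ 2 - v * (n * t) ^ 2 / 24 - 4 / 5 * ((n * t) ^ 2) ^ 2 ≤ Lg n t := by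
  have hn' : (0 : ℝ) < n := by exact_mod_cast hn
  set a := (n : ℝ) * t with ha
  have hterm : ∀ j ∈ range (2 * n), (x j * t) ^ 2 / 2 - (x j * t) ^ 4 / 4
      ≤ Real.log (1 + (x j * t) ^ 2) / 2 := by
    intro j _
    have := log_lb (sq_nonneg (x j * t))
    nlinarith
  have hs := sum_le_sum hterm
  rw [sum_sub_distrib] at hs
  have e2 : ∑ j ∈ range (2 * n), (x j * t) ^ 2 / 2 = 2 * n * (2 / 3 * a ^ 2 - v * a ^ 2 / 24) := by
    have : ∀ j ∈ range (2 * n), (x j * t) ^ 2 / 2 = x j ^ 2 * (t ^ 2 / 2) := by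
      intro j _; ring
    rw [sum_congr rfl this, ← sum_mul, sum_x2]
    push_cast
    rw [ha, hv]
    field_simp
    ring
  have e4 : ∑ j ∈ range (2 * n), (x j * t) ^ 4 / 4 ≤ 2 * n * (4 / 5 * (a ^ 2) ^ 2) := by
    have : ∀ j ∈ range (2 * n), (x j * t) ^ 4 / 4 = x j ^ 4 * (t ^ 4 / 4) := by
      intro j _; ring
    rw [sum_congr rfl this, ← sum_mul]
    have h := mul_le_mul_of_nonneg_right (sum_x4 (2 * n)) (show 0 ≤ t ^ 4 / 4 by positivity)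
    refine h.trans (le_of_eq ?_)
    push_cast
    rw [ha]
    ring
  unfold Lg
  rw [le_div_iff₀ (by positivity)]
  refine le_trans ?_ hs
  rw [e2]
  nlinarith

theorem lower_large {n : ℕ} (hn : 16 ≤ n) {t : ℝ} (ht : 0 < t)
    (hm : m n t = Real.pi / (2 * n)) :
    t < Real.pi / (2 * n ^ 2) * Real.exp (Lg n t) := by
  have hn1 : 1 ≤ n := by omega
  have hn' : (0 : ℝ) < n := by exact_mod_cast hn1
  have hn16 : (16 : ℝ) ≤ n := by exact_mod_cast hn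
  obtain ⟨v, hv⟩ : ∃ v : ℝ, v = 1 / (n : ℝ) ^ 2 := ⟨_, rfl⟩
  have hv0 : 0 ≤ v := by rw [hv]; positivity
  have hv1 : v ≤ 1 / 256 := by
    rw [hv]
    apply one_div_le_one_div_of_le (by norm_num)
    nlinarith
  have hU : Real.pi / (2 * n) ≤ 985 / 10000 := by
    rw [div_le_iff₀ (by positivity)]
    nlinarith [Real.pi_lt_d2]
  have ha : n * t < 1 / 10 := by
    by_contra hc
    push Not at hc
    have h1 : 1 / 10 / n ≤ t := by
      rw [div_le_iff₀ hn']; linarith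
    have h2 := m_mono n h1
    have h3 := m_lb hn1 (t := 1 / 10 / n) (by positivity) v hv (by
      rw [mul_div_cancel₀ _ hn'.ne']; norm_num)
    rw [mul_div_cancel₀ _ hn'.ne'] at h3
    rw [hm] at h2
    have h4 := h3.trans (h2.trans hU)
    norm_num at h4
    nlinarith
  have hy : 0 < ((n : ℝ) * t) ^ 2 := by positivity
  have hy' : ((n : ℝ) * t) ^ 2 < 1 / 100 := by
    have : 0 < (n : ℝ) * t := by positivity
    nlinarith
  have h1 := m_lb hn1 ht v hv (by linarith)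
  have h2 := Lg_lb hn1 (t := t) v hv
  have h3 := poly2 hy hy' hv0 hv1
  rw [hm] at h1
  set a := (n : ℝ) * t with haa
  have ha0 : 0 < a := by positivity
  set y := a ^ 2 with hyy
  have hLnn : 0 ≤ 2 / 3 * y - v * y / 24 - 4 / 5 * y ^ 2 := by nlinarith
  have h4 : 1 + (2 / 3 * y - v * y / 24 - 4 / 5 * y ^ 2) +
        (2 / 3 * y - v * y / 24 - 4 / 5 * y ^ 2) ^ 2 / 2 ≤ Real.exp (Lg n t) :=
    (Real.quadratic_le_exp_of_nonneg hLnn).trans (Real.exp_le_exp.2 h2)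
  have h5 : a < a * (1 - 2 / 3 * y + 16 / 15 * y ^ 2 - 64 / 21 * y ^ 3
      + v * y / 12 - v * y ^ 2 / 3) *
      (1 + (2 / 3 * y - v * y / 24 - 4 / 5 * y ^ 2) +
        (2 / 3 * y - v * y / 24 - 4 / 5 * y ^ 2) ^ 2 / 2) := by
    rw [mul_assoc]
    nlinarith
  have h6 : a < Real.pi / (2 * n) * Real.exp (Lg n t) := by
    refine lt_of_lt_of_le h5 ?_
    apply mul_le_mul h1 h4
    · nlinarith [sq_nonneg (2 / 3 * y - v * y / 24 - 4 / 5 * y ^ 2)]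
    · positivity
  have h7 : Real.pi / (2 * n ^ 2) * Real.exp (Lg n t) =
      (Real.pi / (2 * n) * Real.exp (Lg n t)) / n := by
    field_simp
  rw [h7, lt_div_iff₀ hn']
  rw [haa] at h6
  linarith

end Pool.Agent.X216.CN
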