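import Pool.Agent.X216.CN.Roots

open Finset

namespace Pool.Agent.X216.CN

/-- product of the Gaussian integers `(2j+1) 10^6 + i b` -/
def gp (b : ℤ) : ℕ → ℤ × ℤ
  | 0 => (1, 0)
  | j + 1 => match gp b j with
    | (p, q) => (p * ((2 * j + 1) * 1000000) - q * b, p * b + q * ((2 * j + 1) * 1000000))

/-- the table of approximate roots (times `2 * 10^6`) -/
def tab (n : ℕ) : ℤ :=
  [0, 0, 3316623, 9522936, 18371357, 29798452, 43785912, 60326777, 79417944, 101057865,
    125245701, 151980965, 181263361, 213092699, 247468853, 284391738].getD n 0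

/-- the check -/
def chk (n : ℕ) : Bool :=
  match gp (tab n) (2 * n) with
  | (p, q) => decide ((-1) ^ (n - 1) * q < 0) &&
    decide ((4 * 1000000 * (n : ℤ) ^ 2 * 1000000) ^ (4 * n) ≤ (p * p + q * q) * 3141592 ^ (4 * n))

lemma chk_all : ∀ n ∈ List.range' 2 14, chk n = true := by decide +kernel

lemma tab_nonneg : ∀ n ∈ List.range' 2 14, 0 ≤ tab n := by decide +kernel

lemma gp_spec (b : ℤ) (m : ℕ) :
    (∏ j ∈ range m, ((x j : ℂ) + (((b : ℝ) / 2000000 : ℝ) : ℂ) * Complex.I)) * 2000000 ^ m =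
      ((gp b m).1 : ℂ) + ((gp b m).2 : ℂ) * Complex.I := by
  induction m with
  | zero => simp [gp]
  | succ m ih =>
    have e : gp b (m + 1) = ((gp b m).1 * ((2 * m + 1) * 1000000) - (gp b m).2 * b,
        (gp b m).1 * b + (gp b m).2 * ((2 * m + 1) * 1000000)) := by
      rw [gp]
    rw [e, prod_range_succ, pow_succ]
    have e2 : (∏ j ∈ range m, ((x j : ℂ) + (((b : ℝ) / 2000000 : ℝ) : ℂ) * Complex.I)) *
        ((x m : ℂ) + (((b : ℝ) / 2000000 : ℝ) : ℂ) * Complex.I) * (2000000 ^ m * 2000000) =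
        ((∏ j ∈ range m, ((x j : ℂ) + (((b : ℝ) / 2000000 : ℝ) : ℂ) * Complex.I)) *
          2000000 ^ m) * (((x m : ℂ) + (((b : ℝ) / 2000000 : ℝ) : ℂ) * Complex.I) * 2000000) := by
      ring
    rw [e2, ih]
    have e3 : ((x m : ℂ) + (((b : ℝ) / 2000000 : ℝ) : ℂ) * Complex.I) * 2000000 =
        (2 * (m : ℂ) + 1) * 1000000 + (b : ℂ) * Complex.I := by
      unfold x
      push_cast
      ring
    rw [e3]
    push_cast
    have hI : Complex.I ^ 2 = -1 := Complex.I_sq
    linear_combination ((gp b m).2 : ℂ) * b * hI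

lemma polar_prod (n : ℕ) (τ : ℝ) : (Cc n τ : ℂ) * Complex.exp (A n τ * Complex.I) =
    ∏ j ∈ range (2 * n), ((x j : ℂ) + τ * Complex.I) := by
  have h1 := Q_polar n τ
  rw [Q_line] at h1
  have h2 : ((-1 : ℂ)) ^ n ≠ 0 := pow_ne_zero _ (by norm_num)
  exact (mul_left_cancel₀ h2 h1).symm

lemma small_facts {n : ℕ} (hn : 1 ≤ n) (h : chk n = true) :
    A n ((tab n : ℝ) / 2000000) < (n - 1) * Real.pi ∧
      (2 * (n : ℝ) ^ 2 / Real.pi) ^ (2 * n) < Cc n ((tab n : ℝ) / 2000000) := by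
  have hn1 : (1 : ℝ) ≤ n := by exact_mod_cast hn
  set τ : ℝ := (tab n : ℝ) / 2000000 with hτ
  have hspec := gp_spec (tab n) (2 * n)
  rw [← hτ, ← polar_prod] at hspec
  obtain ⟨p, q, hpq⟩ : ∃ p q : ℤ, gp (tab n) (2 * n) = (p, q) := ⟨_, _, rfl⟩
  unfold chk at h
  rw [hpq] at h hspec
  simp only [Bool.and_eq_true, decide_eq_true_eq] at h
  obtain ⟨h1, h2⟩ := h
  simp only [] at hspec
  have hC := Cc_pos n τ
  -- imaginary part
  have him : Cc n τ * Real.sin (A n τ) * 2000000 ^ (2 * n) = q := by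
    have := congrArg Complex.im hspec
    have e1 : ((Cc n τ : ℂ) * Complex.exp (A n τ * Complex.I) * 2000000 ^ (2 * n)) =
      ((Cc n τ * 2000000 ^ (2 * n) : ℝ) : ℂ) * Complex.exp (A n τ * Complex.I) := by
      push_cast; ring
    rw [e1, Complex.im_ofReal_mul, Complex.exp_ofReal_mul_I_im] at this
    simp at this
    linarith
  have hnorm : Cc n τ ^ 2 * (2000000 ^ (2 * n)) ^ 2 = (p : ℝ) * p + q * q := by
    have := congrArg Complex.normSq hspec
    have e1 : ((Cc n τ : ℂ) * Complex.exp (A n τ * Complex.I) * 2000000 ^ (2 * n)) =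
      ((Cc n τ * 2000000 ^ (2 * n) : ℝ) : ℂ) * Complex.exp (A n τ * Complex.I) := by
      push_cast; ring
    rw [e1, Complex.normSq_mul, Complex.normSq_eq_norm_sq (Complex.exp _),
      Complex.norm_exp_ofReal_mul_I, Complex.normSq_ofReal] at this
    have e2 : Complex.normSq ((p : ℂ) + (q : ℂ) * Complex.I) = (p : ℝ) * p + q * q := by
      have := Complex.normSq_add_mul_I (p : ℝ) (q : ℝ)
      push_cast at this
      rw [this]; ring
    rw [e2] at this
    linarith
  constructor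
  · by_contra hcon
    push Not at hcon
    have hA := A_lt hn τ
    -- sin sign
    have h3 : 0 ≤ (-1 : ℝ) ^ (n - 1) * Real.sin (A n τ) := by
      obtain ⟨k, rfl⟩ : ∃ k, n = k + 1 := ⟨n - 1, by omega⟩
      have e : A (k + 1) τ = (A (k + 1) τ - k * Real.pi) + k * Real.pi := by ring
      rw [e, Real.sin_add_nat_mul_pi]
      simp only [Nat.add_sub_cancel]
      rw [← mul_assoc, ← mul_pow]
      norm_num
      push_cast at hcon hA
      apply Real.sin_nonneg_of_nonneg_of_le_pi <;> linarith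
    have h4 : ((-1 : ℝ) ^ (n - 1) * q) < 0 := by exact_mod_cast h1
    rw [← him] at h4
    have h5 : 0 ≤ (-1 : ℝ) ^ (n - 1) * Real.sin (A n τ) * (Cc n τ * 2000000 ^ (2 * n)) :=
      mul_nonneg h3 (by positivity)
    nlinarith
  · have hpi := Real.pi_gt_d6
    have hpi0 := Real.pi_pos
    have h3 : ((4 * 1000000 * (n : ℝ) ^ 2 * 1000000) ^ (4 * n) : ℝ) ≤
        ((p : ℝ) * p + q * q) * 3141592 ^ (4 * n) := by exact_mod_cast h2
    rw [← hnorm] at h3
    have hlt : 2 * (n : ℝ) ^ 2 / Real.pi < 2 * (n : ℝ) ^ 2 * 1000000 / 3141592 := by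
      rw [div_lt_div_iff₀ hpi0 (by norm_num)]
      have h0 : (3141592 : ℝ) < 1000000 * Real.pi := by linarith
      have h00 : (0 : ℝ) < 2 * (n : ℝ) ^ 2 := by positivity
      have := mul_lt_mul_of_pos_left h0 h00
      linarith
    have h4 : (2 * (n : ℝ) ^ 2 / Real.pi) ^ (2 * n) <
        (2 * (n : ℝ) ^ 2 * 1000000 / 3141592) ^ (2 * n) :=
      pow_lt_pow_left₀ hlt (by positivity) (by omega)
    refine lt_of_lt_of_le h4 ?_
    have h5 : ((2 * (n : ℝ) ^ 2 * 1000000 / 3141592) ^ (2 * n)) ^ 2 ≤ Cc n τ ^ 2 := by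
      rw [← pow_mul, show 2 * n * 2 = 4 * n by ring, div_pow, div_le_iff₀ (by positivity)]
      have e1 : (4 * 1000000 * (n : ℝ) ^ 2 * 1000000) ^ (4 * n) =
          (2 * (n : ℝ) ^ 2 * 1000000) ^ (4 * n) * 2000000 ^ (4 * n) := by
        rw [← mul_pow]; congr 1; ring
      have e2 : ((2000000 : ℝ) ^ (2 * n)) ^ 2 = 2000000 ^ (4 * n) := by
        rw [← pow_mul]; congr 1; ring
      rw [e1, e2] at h3
      have hpos : (0 : ℝ) < 2000000 ^ (4 * n) := by positivity
      have : (2 * (n : ℝ) ^ 2 * 1000000) ^ (4 * n) * 2000000 ^ (4 * n) ≤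
          (Cc n τ ^ 2 * 3141592 ^ (4 * n)) * 2000000 ^ (4 * n) := by linarith
      exact le_of_mul_le_mul_right this hpos
    exact le_of_sq_le_sq h5 hC.le

end Pool.Agent.X216.CN
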