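import Pool.Agent.X216.CN.Upper

open Finset Filter Topology

namespace Pool.Agent.X216.CN

/-- `Q(s) = ∏ ((k+1/2)^2 - s^2)`. -/
noncomputable def Q (n : ℕ) (s : ℂ) : ℂ := ∏ k ∈ range n, (((k : ℂ) + 1 / 2) ^ 2 - s ^ 2)

lemma Q_neg (n : ℕ) (s : ℂ) : Q n (-s) = Q n s := by simp [Q]

lemma Q_conj (n : ℕ) (s : ℂ) : Q n ((starRingEnd ℂ) s) = (starRingEnd ℂ) (Q n s) := by
  unfold Q
  rw [map_prod]
  apply prod_congr rfl
  intro k _
  have : ((k : ℂ) + 1 / 2) = (((k : ℝ) + 1 / 2 : ℝ) : ℂ) := by push_cast; ring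
  rw [this, map_sub, map_pow, map_pow, Complex.conj_ofReal]

lemma Q_real (n : ℕ) (r : ℝ) :
    Q n (r : ℂ) = ((∏ k ∈ range n, (((k : ℝ) + 1 / 2) ^ 2 - r ^ 2) : ℝ) : ℂ) := by
  unfold Q; push_cast; rfl

lemma Q_imag (n : ℕ) (y : ℝ) :
    Q n (y * Complex.I) = ((∏ k ∈ range n, (((k : ℝ) + 1 / 2) ^ 2 + y ^ 2) : ℝ) : ℂ) := by
  unfold Q; push_cast
  apply prod_congr rfl
  intro k _
  rw [mul_pow, Complex.I_sq]; ring

lemma continuous_Q (n : ℕ) : Continuous (Q n) := by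
  unfold Q
  fun_prop

lemma differentiable_Q (n : ℕ) : Differentiable ℂ (Q n) := by
  unfold Q
  fun_prop

lemma Q_zero_ne (n : ℕ) : Q n 0 ≠ 0 := by
  unfold Q
  rw [prod_ne_zero_iff]
  intro k _
  have : ((k : ℂ) + 1 / 2) ≠ 0 := by
    intro h
    have := congrArg Complex.re h
    simp at this
    have hk : (0 : ℝ) ≤ k := by positivity
    linarith
  simpa using this

lemma Q_half {n : ℕ} (hn : 1 ≤ n) : Q n (1 / 2) = 0 := by
  unfold Q
  apply prod_eq_zero (i := 0) (by simp; omega)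
  norm_num

lemma isOpenMap_Q {n : ℕ} (hn : 1 ≤ n) : IsOpenMap (Q n) := by
  have h : AnalyticOnNhd ℂ (Q n) Set.univ := fun z _ => (differentiable_Q n).analyticAt z
  rcases h.is_constant_or_isOpenMap with ⟨w, hw⟩ | h
  · exfalso
    apply Q_zero_ne n
    rw [hw 0, ← hw (1 / 2), Q_half hn]
  · exact h

/-! ### The boundary line -/

/-- the total argument on the line -/
noncomputable def A (n : ℕ) (τ : ℝ) : ℝ := ∑ j ∈ range (2 * n), Real.arctan (τ / x j)

/-- the modulus on the line -/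
noncomputable def Cc (n : ℕ) (τ : ℝ) : ℝ := ∏ j ∈ range (2 * n), Real.sqrt (x j ^ 2 + τ ^ 2)

lemma Q_line (n : ℕ) (τ : ℝ) :
    Q n (n + τ * Complex.I) = (-1) ^ n * ∏ j ∈ range (2 * n), ((x j : ℂ) + τ * Complex.I) := by
  have h1 : Q n (n + τ * Complex.I) =
      (∏ k ∈ range n, (((k : ℂ) + 1 / 2) - (n + τ * Complex.I))) *
      ∏ k ∈ range n, (((k : ℂ) + 1 / 2) + (n + τ * Complex.I)) := by
    unfold Q
    rw [← prod_mul_distrib]
    apply prod_congr rfl
    intro k _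
    ring
  have h2 : ∏ k ∈ range n, (((k : ℂ) + 1 / 2) - (n + τ * Complex.I)) =
      (-1) ^ n * ∏ k ∈ range n, ((x k : ℂ) + τ * Complex.I) := by
    rw [← prod_range_reflect (fun k => ((x k : ℂ) + τ * Complex.I))]
    have : ((-1 : ℂ)) ^ n = ∏ k ∈ range n, (-1 : ℂ) := by simp
    rw [this, ← prod_mul_distrib]
    apply prod_congr rfl
    intro k hk
    rw [mem_range] at hk
    have hc : ((n - 1 - k : ℕ) : ℝ) = (n : ℝ) - 1 - k := by
      have : ((n - 1 - k : ℕ) : ℝ) + 1 + k = n := by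
        have : (n - 1 - k) + 1 + k = n := by omega
        exact_mod_cast this
      linarith
    unfold x
    rw [hc]
    push_cast
    ring
  rw [h1, h2, two_mul, prod_range_add, mul_assoc]
  congr 2
  apply prod_congr rfl
  intro k _
  unfold x
  push_cast
  ring

lemma polar {a : ℝ} (ha : 0 < a) (τ : ℝ) :
    (a : ℂ) + τ * Complex.I =
      (Real.sqrt (a ^ 2 + τ ^ 2) : ℂ) * Complex.exp (Real.arctan (τ / a) * Complex.I) := by
  have h1 : Real.sqrt (a ^ 2 + τ ^ 2) = a * Real.sqrt (1 + (τ / a) ^ 2) := by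
    rw [show a ^ 2 + τ ^ 2 = a ^ 2 * (1 + (τ / a) ^ 2) by field_simp, Real.sqrt_mul (by positivity),
      Real.sqrt_sq ha.le]
  have hpos : 0 < Real.sqrt (1 + (τ / a) ^ 2) := Real.sqrt_pos.2 (by positivity)
  rw [Complex.exp_mul_I, ← Complex.ofReal_cos, ← Complex.ofReal_sin, Real.cos_arctan,
    Real.sin_arctan, h1]
  have e1 : a * Real.sqrt (1 + (τ / a) ^ 2) * (1 / Real.sqrt (1 + (τ / a) ^ 2)) = a := by
    field_simp
  have e2 : a * Real.sqrt (1 + (τ / a) ^ 2) * (τ / a / Real.sqrt (1 + (τ / a) ^ 2)) = τ := by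
    field_simp
  rw [mul_add, ← Complex.ofReal_mul, e1, ← mul_assoc, ← Complex.ofReal_mul, e2]

lemma Q_polar (n : ℕ) (τ : ℝ) :
    Q n (n + τ * Complex.I) = (-1) ^ n * ((Cc n τ : ℂ) * Complex.exp (A n τ * Complex.I)) := by
  rw [Q_line]
  congr 1
  unfold Cc A
  push_cast
  rw [sum_mul, Complex.exp_sum, ← prod_mul_distrib]
  apply prod_congr rfl
  intro j _
  rw [polar (x_pos j) τ]
  push_cast
  rfl

lemma Cc_pos (n : ℕ) (τ : ℝ) : 0 < Cc n τ := by
  unfold Cc
  apply prod_pos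
  intro j _
  apply Real.sqrt_pos.2
  have := x_pos j
  positivity

lemma Cc_mono (n : ℕ) {s t : ℝ} (hs : 0 ≤ s) (h : s ≤ t) : Cc n s ≤ Cc n t := by
  unfold Cc
  apply Finset.prod_le_prod
  · intro j _; exact Real.sqrt_nonneg _
  · intro j _
    apply Real.sqrt_le_sqrt
    have := pow_le_pow_left₀ hs h 2
    linarith

lemma A_strictMono {n : ℕ} (hn : 1 ≤ n) : StrictMono (A n) := by
  intro s t h
  unfold A
  apply sum_lt_sum_of_nonempty ⟨0, by simp; omega⟩
  intro j _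
  exact Real.arctan_strictMono (div_lt_div_of_pos_right h (x_pos j))

lemma A_lt {n : ℕ} (hn : 1 ≤ n) (τ : ℝ) : A n τ < n * Real.pi := by
  have h : A n τ < ∑ j ∈ range (2 * n), Real.pi / 2 := by
    apply sum_lt_sum_of_nonempty ⟨0, by simp; omega⟩
    intro j _
    exact Real.arctan_lt_pi_div_two _
  rw [sum_const, card_range, nsmul_eq_mul] at h
  push_cast at h
  linarith

lemma A_nonneg (n : ℕ) {τ : ℝ} (h : 0 ≤ τ) : 0 ≤ A n τ := by
  unfold A
  apply sum_nonneg
  intro j _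
  exact Real.arctan_nonneg.2 (div_nonneg h (x_pos j).le)

lemma continuous_A (n : ℕ) : Continuous (A n) := by
  unfold A
  apply continuous_finsetSum
  intro j _
  exact Real.continuous_arctan.comp (continuous_id.div_const _)

lemma tau_exists {n : ℕ} (hn : 1 ≤ n) : ∃ τ : ℝ, 0 ≤ τ ∧ A n τ = (n - 1) * Real.pi := by
  have hn' : (0 : ℝ) < n := by exact_mod_cast hn
  have hn1 : (1 : ℝ) ≤ n := by exact_mod_cast hn
  have hpi := Real.pi_pos
  -- a large value
  obtain ⟨T, hT0, hT⟩ : ∃ T : ℝ, 0 ≤ T ∧ (n - 1) * Real.pi ≤ A n T := by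
    have hang : 0 ≤ Real.pi / 2 - Real.pi / (2 * n) := by
      rw [sub_nonneg]
      apply div_le_div_of_nonneg_left hpi.le (by norm_num)
      linarith
    have hang2 : Real.pi / 2 - Real.pi / (2 * n) < Real.pi / 2 := by
      have : 0 < Real.pi / (2 * n) := by positivity
      linarith
    refine ⟨2 * n * Real.tan (Real.pi / 2 - Real.pi / (2 * n)), ?_, ?_⟩
    · have := Real.tan_nonneg_of_nonneg_of_le_pi_div_two hang hang2.le
      positivity
    · have h : ∑ j ∈ range (2 * n), (Real.pi / 2 - Real.pi / (2 * n)) ≤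
          A n (2 * n * Real.tan (Real.pi / 2 - Real.pi / (2 * n))) := by
        apply sum_le_sum
        intro j hj
        rw [mem_range] at hj
        have hj' : (j : ℝ) + 1 ≤ 2 * n := by exact_mod_cast hj
        have htan := Real.tan_nonneg_of_nonneg_of_le_pi_div_two hang hang2.le
        rw [← Real.arctan_tan (by linarith) hang2]
        apply Real.arctan_mono
        rw [Real.arctan_tan (by linarith) hang2, le_div_iff₀ (x_pos j), mul_comm]
        apply mul_le_mul_of_nonneg_right _ htan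
        unfold x; linarith
      rw [sum_const, card_range, nsmul_eq_mul] at h
      push_cast at h
      have e : 2 * (n : ℝ) * (Real.pi / 2 - Real.pi / (2 * n)) = (n - 1) * Real.pi := by
        field_simp
      linarith
  have h0 : A n 0 = 0 := by simp [A]
  have := intermediate_value_Icc hT0 (continuous_A n).continuousOn
  have hmem : (n - 1) * Real.pi ∈ Set.Icc (A n 0) (A n T) := by
    rw [h0]
    exact ⟨mul_nonneg (by linarith) hpi.le, hT⟩
  obtain ⟨τ, hτ, h⟩ := this hmem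
  exact ⟨τ, hτ.1, h⟩

lemma Q_tau {n : ℕ} {τ : ℝ} (h : A n τ = (n - 1) * Real.pi) :
    Q n (n + τ * Complex.I) = -(Cc n τ : ℂ) := by
  rw [Q_polar, h]
  have : (((n - 1) * Real.pi : ℝ) : ℂ) * Complex.I = (n : ℂ) * (Real.pi * Complex.I)
      + (-(Real.pi * Complex.I)) := by
    push_cast; ring
  rw [this, Complex.exp_add, Complex.exp_nat_mul, Complex.exp_neg, Complex.exp_pi_mul_I]
  have h2 : ((-1 : ℂ)) ^ n * (-1) ^ n = 1 := by
    rw [← mul_pow]; norm_num
  linear_combination (-(Cc n τ : ℂ)) * h2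

/-- On the line, the values `-c` with `c > 0` satisfy the bound. -/
lemma bdry {n : ℕ} (hn : 1 ≤ n) {τ c : ℝ} (hc : 0 < c)
    (h : Q n (n + τ * Complex.I) = -(c : ℂ)) : c = Cc n τ ∧ A n τ ≤ (n - 1) * Real.pi := by
  rw [Q_polar] at h
  have hnorm := congrArg norm h
  rw [norm_mul, norm_pow, norm_neg, norm_one, one_pow, one_mul, norm_mul,
    Complex.norm_exp_ofReal_mul_I, mul_one, norm_neg, Complex.norm_real, Complex.norm_real,
    Real.norm_of_nonneg hc.le, Real.norm_of_nonneg (Cc_pos n τ).le] at hnorm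
  refine ⟨hnorm.symm, ?_⟩
  rw [hnorm] at h
  have hc' : (c : ℂ) ≠ 0 := by exact_mod_cast hc.ne'
  have h1 : ((-1 : ℂ)) ^ n * Complex.exp (A n τ * Complex.I) = -1 := by
    apply mul_left_cancel₀ hc'
    linear_combination h
  have h2 : Complex.exp (((A n τ - (n - 1) * Real.pi : ℝ) : ℂ) * Complex.I) = 1 := by
    have e : ((A n τ - (n - 1) * Real.pi : ℝ) : ℂ) * Complex.I =
        A n τ * Complex.I + (-((n : ℂ) * (Real.pi * Complex.I)) + Real.pi * Complex.I) := by
      push_cast; ring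
    rw [e, Complex.exp_add, Complex.exp_add, Complex.exp_neg, Complex.exp_nat_mul,
      Complex.exp_pi_mul_I]
    have h3 : (((-1 : ℂ)) ^ n)⁻¹ = (-1) ^ n := by
      rw [← inv_pow]; norm_num
    rw [h3]
    linear_combination (-1 : ℂ) * h1
  rw [Complex.exp_eq_one_iff] at h2
  obtain ⟨k, hk⟩ := h2
  have h3 : A n τ - (n - 1) * Real.pi = k * (2 * Real.pi) := by
    have hI : Complex.I ≠ 0 := Complex.I_ne_zero
    have : (((A n τ - (n - 1) * Real.pi : ℝ) : ℂ)) * Complex.I =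
      (((k : ℝ) * (2 * Real.pi) : ℝ) : ℂ) * Complex.I := by
      rw [hk]; push_cast; ring
    exact_mod_cast mul_right_cancel₀ hI this
  have h4 := A_lt hn τ
  have hpi := Real.pi_pos
  have h5 : (k : ℝ) * 2 < 1 := by
    have : (k : ℝ) * (2 * Real.pi) < Real.pi := by linarith
    nlinarith
  have h6 : k ≤ 0 := by
    by_contra hk'
    push Not at hk'
    have : (1 : ℝ) ≤ k := by exact_mod_cast hk'
    linarith
  have h7 : (k : ℝ) ≤ 0 := by exact_mod_cast h6
  have : (k : ℝ) * (2 * Real.pi) ≤ 0 := mul_nonpos_of_nonpos_of_nonneg h7 (by positivity)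
  linarith

/-! ### The velocity lemma -/

lemma logDeriv_Q {n : ℕ} (hn : 1 ≤ n) {s : ℂ} (hre : s.re = n) (h0 : Q n s ≠ 0) :
    0 < (logDeriv (Q n) s).re := by
  have hf : ∀ k ∈ range n, (((k : ℂ) + 1 / 2) ^ 2 - s ^ 2) ≠ 0 := by
    unfold Q at h0
    exact prod_ne_zero_iff.1 h0
  have hfun : Q n = fun s => ∏ k ∈ range n, (((k : ℂ) + 1 / 2) ^ 2 - s ^ 2) := rfl
  rw [hfun, logDeriv_prod (f := fun (k : ℕ) (s : ℂ) => (((k : ℂ) + 1 / 2) ^ 2 - s ^ 2)) hf
    (fun k _ => by fun_prop), Complex.re_sum]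
  apply sum_pos
  · intro k hk
    have hk' := mem_range.1 hk
    have hkn : (k : ℝ) + 1 ≤ n := by exact_mod_cast hk'
    have hd : deriv (fun s : ℂ => (((k : ℂ) + 1 / 2) ^ 2 - s ^ 2)) s = -(2 * s) := by
      rw [deriv_const_sub]
      simp
    rw [logDeriv_apply, hd]
    have hne := hf k hk
    have h1 : s - ((k : ℂ) + 1 / 2) ≠ 0 := by
      intro h; apply hne; linear_combination (-(s + (k + 1 / 2))) * h
    have h2 : s + ((k : ℂ) + 1 / 2) ≠ 0 := by
      intro h; apply hne; linear_combination (-(s - (k + 1 / 2))) * h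
    have e : -(2 * s) / (((k : ℂ) + 1 / 2) ^ 2 - s ^ 2) =
        (s - ((k : ℂ) + 1 / 2))⁻¹ + (s + ((k : ℂ) + 1 / 2))⁻¹ := by
      have e0 : (((k : ℂ) + 1 / 2) ^ 2 - s ^ 2) =
        -((s - ((k : ℂ) + 1 / 2)) * (s + ((k : ℂ) + 1 / 2))) := by ring
      rw [e0, inv_add_inv h1 h2, neg_div_neg_eq]
      congr 1
      ring
    rw [e, Complex.add_re, Complex.inv_re, Complex.inv_re]
    have r1 : (s - ((k : ℂ) + 1 / 2)).re = n - (k + 1 / 2) := by
      simp [hre]
    have r2 : (s + ((k : ℂ) + 1 / 2)).re = n + (k + 1 / 2) := by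
      simp [hre]
    rw [r1, r2]
    have hk0 : (0 : ℝ) ≤ k := by positivity
    have p1 := Complex.normSq_pos.2 h1
    have p2 := Complex.normSq_pos.2 h2
    have q1 : 0 < (n : ℝ) - (k + 1 / 2) := by linarith
    have q2 : 0 < (n : ℝ) + (k + 1 / 2) := by linarith
    positivity
  · exact ⟨0, by simp; omega⟩

lemma velocity {n : ℕ} (hn : 1 ≤ n) {s0 : ℂ} (hre : s0.re = n) {c1 : ℝ} (hc1 : 0 < c1)
    (hQ : Q n s0 = -(c1 : ℂ)) :
    ∀ᶠ s in 𝓝 s0, ∀ c : ℝ, Q n s = -(c : ℂ) →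
      (c1 < c → (n : ℝ) < s.re) ∧ (c < c1 → s.re < n) := by
  have hc1' : (c1 : ℂ) ≠ 0 := by exact_mod_cast hc1.ne'
  have hQ0 : Q n s0 ≠ 0 := by rw [hQ]; exact neg_ne_zero.2 hc1'
  set L := logDeriv (Q n) s0 with hL
  have hLre : 0 < L.re := logDeriv_Q hn hre hQ0
  have hL0 : L ≠ 0 := by
    intro h; rw [h] at hLre; simp at hLre
  have hder : HasDerivAt (Q n) (-(c1 * L)) s0 := by
    have h1 := (differentiable_Q n s0).hasDerivAt
    have h2 : deriv (Q n) s0 = -(c1 * L) := by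
      rw [hL, logDeriv_apply, hQ]
      field_simp
    rwa [h2] at h1
  set b : ℂ := (c1 * L)⁻¹ with hb
  have hb0 : b ≠ 0 := inv_ne_zero (mul_ne_zero hc1' hL0)
  have hbn : 0 < ‖b‖ := norm_pos_iff.2 hb0
  have hbre : 0 < b.re := by
    rw [hb, Complex.inv_re]
    have : (c1 * L : ℂ).re = c1 * L.re := by simp
    rw [this]
    have := Complex.normSq_pos.2 (mul_ne_zero hc1' hL0)
    positivity
  set η : ℝ := min (1 / 2) (b.re / (4 * ‖b‖)) with hη
  have hη0 : 0 < η := by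
    rw [hη]; apply lt_min (by norm_num); positivity
  have hη1 : η ≤ 1 / 2 := min_le_left _ _
  have hη2 : η ≤ b.re / (4 * ‖b‖) := min_le_right _ _
  have hδ : 0 < η / ‖b‖ := by positivity
  have ho := (hasDerivAt_iff_isLittleO.1 hder).def hδ
  filter_upwards [ho] with s hs c hc
  rw [hc, hQ, smul_eq_mul] at hs
  set d := s - s0 with hd
  set h : ℝ := c - c1 with hh
  have e1 : d - b * (h : ℂ) = b * ((-(c : ℂ)) - (-(c1 : ℂ)) - d * (-(c1 * L))) := by
    have e2 : b * (c1 * L) = 1 := by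
      rw [hb]; exact inv_mul_cancel₀ (mul_ne_zero hc1' hL0)
    rw [hh]
    push_cast
    linear_combination (-d) * e2
  have h1 : ‖d - b * (h : ℂ)‖ ≤ η * ‖d‖ := by
    rw [e1, norm_mul]
    calc ‖b‖ * ‖-(c : ℂ) - (-(c1 : ℂ)) - d * (-(c1 * L))‖ ≤ ‖b‖ * (η / ‖b‖ * ‖d‖) :=
          mul_le_mul_of_nonneg_left hs hbn.le
      _ = η * ‖d‖ := by field_simp
  have h2 : ‖d‖ ≤ 2 * ‖b‖ * |h| := by
    have h3 : ‖d‖ ≤ ‖d - b * (h : ℂ)‖ + ‖b * (h : ℂ)‖ := by
      have := norm_add_le (d - b * (h : ℂ)) (b * (h : ℂ))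
      rwa [sub_add_cancel] at this
    rw [norm_mul, Complex.norm_real, Real.norm_eq_abs] at h3
    have h4 : η * ‖d‖ ≤ 1 / 2 * ‖d‖ := mul_le_mul_of_nonneg_right hη1 (norm_nonneg _)
    linarith
  have h3 : |d.re - b.re * h| ≤ b.re * |h| / 2 := by
    have h4 : (d - b * (h : ℂ)).re = d.re - b.re * h := by simp
    rw [← h4]
    refine (Complex.abs_re_le_norm _).trans (h1.trans ?_)
    calc η * ‖d‖ ≤ b.re / (4 * ‖b‖) * (2 * ‖b‖ * |h|) :=
          mul_le_mul hη2 h2 (norm_nonneg _) (by positivity)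
      _ = b.re * |h| / 2 := by field_simp; ring
  have h5 : d.re = s.re - n := by rw [hd, Complex.sub_re, hre]
  rw [abs_le] at h3
  rw [h5] at h3
  constructor
  · intro hcc
    have hpos : 0 < h := by rw [hh]; linarith
    rw [abs_of_pos hpos] at h3
    have := mul_pos hbre hpos
    linarith [h3.1]
  · intro hcc
    have hneg : h < 0 := by rw [hh]; linarith
    rw [abs_of_neg hneg] at h3
    have := mul_pos hbre (neg_pos.2 hneg)
    nlinarith [h3.2]

end Pool.Agent.X216.CN
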