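import Pool.Agent.X216.CN.Roots

open Finset Filter Topology

namespace Pool.Agent.X216.CN

/-- The values `c` for which `Q = -c` has a root in the open strip. -/
def T (n : ℕ) : Set ℝ := {c | ∃ s : ℂ, |s.re| < n ∧ Q n s = -(c : ℂ)}

lemma isOpen_T {n : ℕ} (hn : 1 ≤ n) : IsOpen (T n) := by
  have h1 : IsOpen {s : ℂ | |s.re| < n} :=
    isOpen_lt (Complex.continuous_re.abs) continuous_const
  have h2 := isOpenMap_Q hn _ h1
  have h3 : T n = (fun c : ℝ => -(c : ℂ)) ⁻¹' (Q n '' {s : ℂ | |s.re| < n}) := by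
    ext c
    constructor
    · rintro ⟨s, hs, h⟩
      exact ⟨s, hs, h⟩
    · rintro ⟨s, hs, h⟩
      exact ⟨s, hs, h⟩
  rw [h3]
  exact h2.preimage (by fun_prop)

/-- For large imaginary part the real part of `Q` is positive. -/
lemma re_pos_of_large {n : ℕ} (hn : 1 ≤ n) {s : ℂ} (hre : |s.re| ≤ n)
    (him : 8 * (n : ℝ) ^ 2 ≤ |s.im|) : 0 < (Q n s).re := by
  have hn1 : (1 : ℝ) ≤ n := by exact_mod_cast hn
  have hb0 : 0 < |s.im| := by nlinarith
  have hbne : s.im ≠ 0 := abs_pos.1 hb0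
  have hbc : ((s.im : ℂ)) ≠ 0 := by exact_mod_cast hbne
  set ε : ℕ → ℂ := fun k => (((k : ℂ) + 1 / 2) ^ 2 - s ^ 2) / (s.im : ℂ) ^ 2 - 1 with hε
  have hprod : Q n s = (((s.im ^ 2) ^ n : ℝ) : ℂ) * ∏ k ∈ range n, (1 + ε k) := by
    have : (((s.im ^ 2) ^ n : ℝ) : ℂ) = ∏ k ∈ range n, ((s.im : ℂ) ^ 2) := by
      rw [prod_const, card_range]; push_cast; rfl
    rw [this, ← prod_mul_distrib]
    unfold Q
    apply prod_congr rfl
    intro k _
    rw [hε]
    field_simp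
    ring
  have hbound : ∀ k ∈ range n, ‖ε k‖ ≤ 3 * n / |s.im| := by
    intro k hk
    have hk' : (k : ℝ) + 1 ≤ n := by exact_mod_cast mem_range.1 hk
    have hk0 : (0 : ℝ) ≤ k := by positivity
    have e : ε k = (((((k : ℝ) + 1 / 2) ^ 2 - s.re ^ 2 : ℝ) : ℂ) -
        ((2 * s.re * s.im : ℝ) : ℂ) * Complex.I) / ((s.im ^ 2 : ℝ) : ℂ) := by
      rw [hε]
      have hs : s = (s.re : ℂ) + (s.im : ℂ) * Complex.I := (Complex.re_add_im s).symm
      have hs2 : s ^ 2 = (s.re : ℂ) ^ 2 - (s.im : ℂ) ^ 2 + 2 * s.re * s.im * Complex.I := by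
        have hI : Complex.I ^ 2 = -1 := Complex.I_sq
        calc s ^ 2 = ((s.re : ℂ) + (s.im : ℂ) * Complex.I) ^ 2 := by rw [← hs]
          _ = _ := by linear_combination ((s.im : ℂ)) ^ 2 * hI
      simp only []
      rw [hs2]
      push_cast
      field_simp
      ring
    rw [e, norm_div, Complex.norm_real, Real.norm_of_nonneg (sq_nonneg _), div_le_div_iff₀
      (by positivity) hb0]
    have h1 : ‖((((k : ℝ) + 1 / 2) ^ 2 - s.re ^ 2 : ℝ) : ℂ) -
        ((2 * s.re * s.im : ℝ) : ℂ) * Complex.I‖ ≤ n ^ 2 + 2 * n * |s.im| := by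
      refine (norm_sub_le _ _).trans ?_
      rw [norm_mul, Complex.norm_I, mul_one, Complex.norm_real, Complex.norm_real,
        Real.norm_eq_abs, Real.norm_eq_abs, abs_mul, abs_mul, abs_two]
      apply add_le_add
      · rw [abs_le]
        have hr : s.re ^ 2 ≤ (n : ℝ) ^ 2 := by
          rw [← sq_abs s.re]
          exact pow_le_pow_left₀ (abs_nonneg _) hre 2
        constructor
        · nlinarith
        · nlinarith [sq_nonneg s.re]
      · have := mul_le_mul_of_nonneg_right hre hb0.le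
        nlinarith
    have h2 : (n : ℝ) ^ 2 + 2 * n * |s.im| ≤ 3 * n * |s.im| := by nlinarith
    calc _ ≤ (3 * n * |s.im|) * |s.im| := mul_le_mul_of_nonneg_right (h1.trans h2) hb0.le
      _ = 3 * n * s.im ^ 2 := by rw [← sq_abs s.im]; ring
  have hsum : ∑ k ∈ range n, ‖ε k‖ ≤ 3 / 8 := by
    refine (sum_le_sum hbound).trans ?_
    rw [sum_const, card_range, nsmul_eq_mul, ← mul_div_assoc, div_le_iff₀ hb0]
    nlinarith
  have hexp : Real.exp (∑ k ∈ range n, ‖ε k‖) - 1 < 1 := by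
    have h1 : Real.exp (∑ k ∈ range n, ‖ε k‖) ≤ Real.exp (3 / 8) := Real.exp_le_exp.2 hsum
    have h2 : (1 : ℝ) - 3 / 8 ≤ Real.exp (-(3 / 8)) := by
      have := Real.add_one_le_exp (-(3 / 8 : ℝ))
      linarith
    have h3 : Real.exp (3 / 8) * Real.exp (-(3 / 8)) = 1 := by
      rw [← Real.exp_add]; simp
    have h4 : 0 < Real.exp (3 / 8) := Real.exp_pos _
    nlinarith
  have hnorm := (range n).norm_prod_one_add_sub_one_le ε
  have hre2 : 0 < (∏ k ∈ range n, (1 + ε k)).re := by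
    have h1 := Complex.abs_re_le_norm (∏ k ∈ range n, (1 + ε k) - 1)
    rw [Complex.sub_re, Complex.one_re, abs_le] at h1
    linarith [h1.1]
  rw [hprod, Complex.re_ofReal_mul]
  have : 0 < (s.im ^ 2) ^ n := by positivity
  exact mul_pos this hre2

/-- compact piece of the closed strip -/
def K (n : ℕ) : Set ℂ := (Set.Icc (0 : ℝ) n) ×ℂ (Set.Icc (-(8 * (n : ℝ) ^ 2)) (8 * (n : ℝ) ^ 2))

lemma isCompact_K (n : ℕ) : IsCompact (K n) := isCompact_Icc.reProdIm isCompact_Icc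

lemma mem_T_pos {n : ℕ} (hn : 1 ≤ n) {c : ℝ} (hc : 0 < c) (h : c ∈ T n) :
    ∃ s ∈ K n, s.re < n ∧ Q n s = -(c : ℂ) := by
  obtain ⟨s, hs, hQ⟩ := h
  have him : ∀ s : ℂ, |s.re| < n → Q n s = -(c : ℂ) → |s.im| ≤ 8 * (n : ℝ) ^ 2 := by
    intro s hs hQ
    by_contra hcon
    push Not at hcon
    have := re_pos_of_large hn hs.le hcon.le
    rw [hQ] at this
    simp at this
    linarith
  rcases le_total 0 s.re with h0 | h0
  · refine ⟨s, ?_, (abs_lt.1 hs).2, hQ⟩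
    rw [K, Complex.mem_reProdIm]
    exact ⟨⟨h0, (abs_lt.1 hs).2.le⟩, abs_le.1 (him s hs hQ)⟩
  · have hs' : |(-s).re| < n := by simpa using hs
    have hQ' : Q n (-s) = -(c : ℂ) := by rw [Q_neg]; exact hQ
    refine ⟨-s, ?_, (abs_lt.1 hs').2, hQ'⟩
    rw [K, Complex.mem_reProdIm]
    refine ⟨⟨by simpa using h0, (abs_lt.1 hs').2.le⟩, abs_le.1 (him _ hs' hQ')⟩

lemma mem_T_of {n : ℕ} {s : ℂ} (hs : s ∈ K n) (h : s.re < n) {c : ℝ}
    (hQ : Q n s = -(c : ℂ)) : c ∈ T n := by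
  rw [K, Complex.mem_reProdIm] at hs
  refine ⟨s, ?_, hQ⟩
  rw [abs_lt]
  have := hs.1.1
  exact ⟨by linarith, h⟩

/-- limits of elements of `T` -/
lemma limit_T {n : ℕ} (hn : 1 ≤ n) {c0 : ℝ} {u : ℕ → ℝ} (hu : ∀ k, 0 < u k)
    (huT : ∀ k, u k ∈ T n) (hlim : Tendsto u atTop (𝓝 c0)) (hc0 : c0 ∉ T n) :
    ∃ s0 : ℂ, s0.re = n ∧ Q n s0 = -(c0 : ℂ) ∧
      ∃ᶠ s in 𝓝 s0, ∃ k, Q n s = -(u k : ℂ) ∧ s.re < n := by
  choose s hsK hsre hsQ using fun k => mem_T_pos hn (hu k) (huT k)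
  obtain ⟨s0, hs0, φ, hφ, hlim2⟩ := (isCompact_K n).tendsto_subseq hsK
  have hQ0 : Q n s0 = -(c0 : ℂ) := by
    have h1 : Tendsto (fun k => Q n (s (φ k))) atTop (𝓝 (Q n s0)) :=
      ((continuous_Q n).tendsto s0).comp hlim2
    have h2 : Tendsto (fun k => Q n (s (φ k))) atTop (𝓝 (-(c0 : ℂ))) := by
      have h3 : Tendsto (fun k => -((u (φ k) : ℝ) : ℂ)) atTop (𝓝 (-(c0 : ℂ))) :=
        ((Complex.continuous_ofReal.tendsto c0).comp (hlim.comp hφ.tendsto_atTop)).neg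
      refine h3.congr ?_
      intro k
      rw [hsQ]
    exact tendsto_nhds_unique h1 h2
  have hre : s0.re = n := by
    have hs0' := hs0
    rw [K, Complex.mem_reProdIm] at hs0'
    rcases lt_or_eq_of_le hs0'.1.2 with h | h
    · exact absurd (mem_T_of hs0 h hQ0) hc0
    · exact h
  refine ⟨s0, hre, hQ0, ?_⟩
  intro hev
  have := hlim2.eventually hev
  obtain ⟨k, hk⟩ := this.exists
  exact hk ⟨φ k, hsQ _, hsre _⟩

lemma bdry_le {n : ℕ} (hn : 1 ≤ n) {τ : ℝ} (hτ : A n τ = (n - 1) * Real.pi)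
    {s0 : ℂ} (hre : s0.re = n) {c : ℝ} (hc : 0 < c) (hQ : Q n s0 = -(c : ℂ)) :
    c ≤ Cc n τ := by
  -- reduce to nonnegative imaginary part
  obtain ⟨σ, hσ0, hσ⟩ : ∃ σ : ℝ, 0 ≤ σ ∧ Q n (n + σ * Complex.I) = -(c : ℂ) := by
    rcases le_total 0 s0.im with h | h
    · refine ⟨s0.im, h, ?_⟩
      rw [← hQ]
      congr 1
      apply Complex.ext
      · simp [hre]
      · simp
    · refine ⟨-s0.im, by linarith, ?_⟩
      have : (n : ℂ) + ((-s0.im : ℝ) : ℂ) * Complex.I = (starRingEnd ℂ) s0 := by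
        apply Complex.ext
        · simp [hre]
        · simp
      rw [this, Q_conj, hQ, map_neg, Complex.conj_ofReal]
  obtain ⟨h1, h2⟩ := bdry hn hc hσ
  rw [h1]
  apply Cc_mono n hσ0
  rw [← hτ] at h2
  exact (A_strictMono hn).le_iff_le.1 h2

lemma bddAbove_T {n : ℕ} (hn : 1 ≤ n) : BddAbove (T n) := by
  obtain ⟨C, hC⟩ := (isCompact_K n).exists_bound_of_continuousOn (continuous_Q n).continuousOn
  refine ⟨max C 0, ?_⟩
  intro c hc
  rcases le_or_gt c 0 with h | h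
  · exact h.trans (le_max_right _ _)
  · obtain ⟨s, hs, _, hQ⟩ := mem_T_pos hn h hc
    have := hC s hs
    rw [hQ, norm_neg, Complex.norm_real, Real.norm_of_nonneg h.le] at this
    exact this.trans (le_max_left _ _)

/-- no root in the strip beyond the threshold -/
lemma not_mem_T {n : ℕ} (hn : 1 ≤ n) {τ : ℝ} (hτ : A n τ = (n - 1) * Real.pi)
    {c : ℝ} (hc : Cc n τ ≤ c) : c ∉ T n := by
  intro hcT
  have hne : (T n).Nonempty := ⟨c, hcT⟩
  set c0 := sSup (T n) with hc0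
  have hle : c ≤ c0 := le_csSup (bddAbove_T hn) hcT
  have hpos : 0 < c0 := lt_of_lt_of_le (Cc_pos n τ) (hc.trans hle)
  have hnot : c0 ∉ T n := by
    intro h
    obtain ⟨ε, hε, hball⟩ := Metric.isOpen_iff.1 (isOpen_T hn) c0 h
    have : c0 + ε / 2 ∈ T n := by
      apply hball
      rw [Metric.mem_ball, Real.dist_eq]
      simp only [add_sub_cancel_left]
      rw [abs_of_pos (by linarith)]
      linarith
    have := le_csSup (bddAbove_T hn) this
    linarith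
  -- a sequence
  have hseq : ∀ k : ℕ, ∃ u ∈ T n, c0 - c0 / ((k : ℝ) + 2) < u := by
    intro k
    apply exists_lt_of_lt_csSup hne
    have : 0 < c0 / ((k : ℝ) + 2) := by positivity
    linarith
  choose u huT hu using hseq
  have hupos : ∀ k, 0 < u k := by
    intro k
    have h1 : c0 / ((k : ℝ) + 2) ≤ c0 := by
      apply div_le_self hpos.le
      have : (0 : ℝ) ≤ k := by positivity
      linarith
    linarith [hu k]
  have hlim : Tendsto u atTop (𝓝 c0) := by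
    have h1 : Tendsto (fun k : ℕ => c0 - c0 / ((k : ℝ) + 2)) atTop (𝓝 (c0 - 0)) := by
      apply Tendsto.const_sub
      apply Tendsto.const_div_atTop
      exact tendsto_atTop_add_const_right _ _ tendsto_natCast_atTop_atTop
    rw [sub_zero] at h1
    exact tendsto_of_tendsto_of_tendsto_of_le_of_le h1 tendsto_const_nhds
      (fun k => (hu k).le) (fun k => le_csSup (bddAbove_T hn) (huT k))
  obtain ⟨s0, hre, hQ, _⟩ := limit_T hn hupos huT hlim hnot
  have h1 := bdry_le hn hτ hre hpos hQ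
  have h2 : c = c0 := le_antisymm hle (h1.trans hc)
  rw [h2] at hcT
  exact hnot hcT

/-- nonpositive values -/
lemma mem_T_nonpos {n : ℕ} (hn : 1 ≤ n) {c : ℝ} (hc : c ≤ 0) : c ∈ T n := by
  have hn1 : (1 : ℝ) ≤ n := by exact_mod_cast hn
  rcases le_total (-c) (∏ k ∈ range n, (((k : ℝ) + 1 / 2) ^ 2 - 0 ^ 2)) with h | h
  · -- real root
    have hcont : ContinuousOn (fun r : ℝ => ∏ k ∈ range n, (((k : ℝ) + 1 / 2) ^ 2 - r ^ 2))
        (Set.Icc 0 (1 / 2)) := by fun_prop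
    have hivt := intermediate_value_Icc' (by norm_num : (0 : ℝ) ≤ 1 / 2) hcont
    have h0 : ∏ k ∈ range n, (((k : ℝ) + 1 / 2) ^ 2 - (1 / 2) ^ 2) = 0 := by
      apply prod_eq_zero (i := 0) (by simp; omega)
      norm_num
    have hmem : -c ∈ Set.Icc (∏ k ∈ range n, (((k : ℝ) + 1 / 2) ^ 2 - (1 / 2) ^ 2))
        (∏ k ∈ range n, (((k : ℝ) + 1 / 2) ^ 2 - 0 ^ 2)) := by
      rw [h0]
      exact ⟨by linarith, h⟩
    obtain ⟨r, hr, hr2⟩ := hivt hmem
    refine ⟨(r : ℂ), ?_, ?_⟩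
    · rw [Complex.ofReal_re, abs_of_nonneg hr.1]
      have := hr.2
      linarith
    · simp only [] at hr2
      rw [Q_real, hr2]
      push_cast
      rfl
  · -- imaginary root
    have hcont : ContinuousOn (fun r : ℝ => ∏ k ∈ range n, (((k : ℝ) + 1 / 2) ^ 2 + r ^ 2))
        (Set.Icc 0 (1 - c)) := by fun_prop
    have hivt := intermediate_value_Icc (by linarith : (0 : ℝ) ≤ 1 - c) hcont
    have hbig : -c ≤ ∏ k ∈ range n, (((k : ℝ) + 1 / 2) ^ 2 + (1 - c) ^ 2) := by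
      have h1 : ∏ k ∈ range n, (1 - c) ≤ ∏ k ∈ range n, (((k : ℝ) + 1 / 2) ^ 2 + (1 - c) ^ 2) := by
        apply Finset.prod_le_prod
        · intro k _; linarith
        · intro k _
          nlinarith [sq_nonneg ((k : ℝ) + 1 / 2)]
      rw [prod_const, card_range] at h1
      have h2 : (1 - c) ^ 1 ≤ (1 - c) ^ n := pow_le_pow_right₀ (by linarith) hn
      linarith
    have hmem : -c ∈ Set.Icc (∏ k ∈ range n, (((k : ℝ) + 1 / 2) ^ 2 + 0 ^ 2))
        (∏ k ∈ range n, (((k : ℝ) + 1 / 2) ^ 2 + (1 - c) ^ 2)) := by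
      refine ⟨?_, hbig⟩
      simpa using h
    obtain ⟨r, hr, hr2⟩ := hivt hmem
    refine ⟨(r : ℂ) * Complex.I, ?_, ?_⟩
    · simp
      linarith
    · simp only [] at hr2
      rw [Q_imag, hr2]
      push_cast
      rfl

/-- roots just below the threshold -/
lemma near_T {n : ℕ} (hn : 1 ≤ n) {τ : ℝ} (hτ : A n τ = (n - 1) * Real.pi) :
    ∃ ε > 0, ∀ c : ℝ, Cc n τ - ε < c → c < Cc n τ → c ∈ T n := by
  have hn1 : (1 : ℝ) ≤ n := by exact_mod_cast hn
  set s0 : ℂ := n + τ * Complex.I with hs0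
  have hre : s0.re = n := by simp [hs0]
  have hQ : Q n s0 = -(Cc n τ : ℂ) := Q_tau hτ
  have hv := velocity hn hre (Cc_pos n τ) hQ
  have hstrip : ∀ᶠ s in 𝓝 s0, 0 < s.re := by
    apply (isOpen_lt continuous_const Complex.continuous_re).mem_nhds
    simp only [Set.mem_ofPred_eq]
    rw [hre]; linarith
  have hboth := hv.and hstrip
  have himg : Q n '' {s | (∀ c : ℝ, Q n s = -(c : ℂ) →
      (Cc n τ < c → (n : ℝ) < s.re) ∧ (c < Cc n τ → s.re < n)) ∧ 0 < s.re} ∈ 𝓝 (Q n s0) :=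
    (isOpenMap_Q hn).image_mem_nhds hboth
  rw [hQ] at himg
  have hpre : (fun c : ℝ => -(c : ℂ)) ⁻¹' (Q n '' {s | (∀ c : ℝ, Q n s = -(c : ℂ) →
      (Cc n τ < c → (n : ℝ) < s.re) ∧ (c < Cc n τ → s.re < n)) ∧ 0 < s.re}) ∈ 𝓝 (Cc n τ) := by
    have hc : ContinuousAt (fun c : ℝ => -(c : ℂ)) (Cc n τ) := by fun_prop
    exact hc himg
  obtain ⟨ε, hε, hball⟩ := Metric.mem_nhds_iff.1 hpre
  refine ⟨ε, hε, ?_⟩
  intro c h1 h2
  have : c ∈ Metric.ball (Cc n τ) ε := by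
    rw [Metric.mem_ball, Real.dist_eq, abs_lt]
    constructor <;> linarith
  obtain ⟨s, ⟨hs1, hs2⟩, hs3⟩ := hball this
  refine ⟨s, ?_, hs3⟩
  rw [abs_lt]
  exact ⟨by linarith, (hs1 c hs3).2 h2⟩

/-- all values below the threshold -/
lemma mem_T {n : ℕ} (hn : 1 ≤ n) {τ : ℝ} (hτ : A n τ = (n - 1) * Real.pi)
    {c : ℝ} (hc : c < Cc n τ) : c ∈ T n := by
  by_contra hcT
  have hcpos : 0 < c := by
    by_contra h
    push Not at h
    exact hcT (mem_T_nonpos hn h)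
  obtain ⟨ε, hε, hnear⟩ := near_T hn hτ
  set S : Set ℝ := {b | b ∉ T n ∧ b < Cc n τ} with hS
  have hne : S.Nonempty := ⟨c, hcT, hc⟩
  have hbdd : BddAbove S := ⟨Cc n τ, fun b hb => hb.2.le⟩
  set c1 := sSup S with hc1
  have hcc1 : c ≤ c1 := le_csSup hbdd ⟨hcT, hc⟩
  have hc1pos : 0 < c1 := lt_of_lt_of_le hcpos hcc1
  have hc1le : c1 ≤ Cc n τ - ε := by
    apply csSup_le hne
    intro b hb
    by_contra hcon
    push Not at hcon
    exact hb.1 (hnear b hcon hb.2)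
  have hc1T : c1 ∉ T n := by
    have hcl : IsClosed (T n)ᶜ := (isOpen_T hn).isClosed_compl
    have h1 : c1 ∈ closure S := csSup_mem_closure hne hbdd
    have h2 : closure S ⊆ (T n)ᶜ := closure_minimal (fun b hb => hb.1) hcl
    exact h2 h1
  have habove : ∀ b, c1 < b → b < Cc n τ → b ∈ T n := by
    intro b h1 h2
    by_contra h3
    have := le_csSup hbdd (show b ∈ S from ⟨h3, h2⟩)
    linarith
  -- sequence from above
  set u : ℕ → ℝ := fun k => c1 + ε / ((k : ℝ) + 2) with hu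
  have hupos' : ∀ k, c1 < u k := by
    intro k
    have : 0 < ε / ((k : ℝ) + 2) := by positivity
    rw [hu]; simp only []; linarith
  have hult : ∀ k, u k < Cc n τ := by
    intro k
    have : ε / ((k : ℝ) + 2) < ε := by
      apply div_lt_self hε
      have : (0 : ℝ) ≤ k := by positivity
      linarith
    rw [hu]; simp only []; linarith
  have huT : ∀ k, u k ∈ T n := fun k => habove _ (hupos' k) (hult k)
  have hlim : Tendsto u atTop (𝓝 c1) := by
    have h1 : Tendsto (fun k : ℕ => c1 + ε / ((k : ℝ) + 2)) atTop (𝓝 (c1 + 0)) := by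
      apply Tendsto.const_add
      apply Tendsto.const_div_atTop
      exact tendsto_atTop_add_const_right _ _ tendsto_natCast_atTop_atTop
    rw [add_zero] at h1
    exact h1
  obtain ⟨s0, hre, hQ, hfreq⟩ := limit_T hn (fun k => hc1pos.trans (hupos' k)) huT hlim hc1T
  have hv := velocity hn hre hc1pos hQ
  obtain ⟨s, ⟨k, hk1, hk2⟩, hs⟩ := (hfreq.and_eventually hv).exists
  have := (hs (u k) hk1).1 (hupos' k)
  linarith

/-- The characterisation of the threshold. -/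
theorem mem_T_iff {n : ℕ} (hn : 1 ≤ n) {τ : ℝ} (hτ : A n τ = (n - 1) * Real.pi)
    (c : ℝ) : c ∈ T n ↔ c < Cc n τ := by
  constructor
  · intro h
    by_contra hc
    push Not at hc
    exact not_mem_T hn hτ hc h
  · exact mem_T hn hτ

end Pool.Agent.X216.CN
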