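import Mathlib

open Finset

namespace Pool.Agent.X216.CN

/-- the half integers -/
noncomputable def x (j : ℕ) : ℝ := (j : ℝ) + 1 / 2

lemma x_pos (j : ℕ) : 0 < x j := by unfold x; positivity

/-- the mean of the angles -/
noncomputable def m (n : ℕ) (t : ℝ) : ℝ :=
  (∑ j ∈ range (2 * n), Real.arctan (x j * t)) / (2 * n)

/-- the mean of the logarithms -/
noncomputable def Lg (n : ℕ) (t : ℝ) : ℝ :=
  (∑ j ∈ range (2 * n), Real.log (1 + (x j * t) ^ 2) / 2) / (2 * n)

lemma sum_x (N : ℕ) : ∑ j ∈ range N, x j = (N : ℝ) ^ 2 / 2 := by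
  induction N with
  | zero => simp
  | succ N ih => rw [sum_range_succ, ih]; unfold x; push_cast; ring

/-- The tangent line inequality. -/
lemma tangent {a b : ℝ} (ha : 0 < a) (ha' : a < Real.pi / 2) (hb : 0 < b)
    (hb' : b < Real.pi / 2) :
    (a - b) * Real.cos a ≤ Real.cos b * Real.sin (a - b) := by
  have hca : 0 < Real.cos a := Real.cos_pos_of_mem_Ioo ⟨by linarith, ha'⟩
  have hcb : 0 < Real.cos b := Real.cos_pos_of_mem_Ioo ⟨by linarith, hb'⟩
  have hsa : 0 < Real.sin a := Real.sin_pos_of_pos_of_lt_pi ha (by linarith)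
  have hsb : 0 < Real.sin b := Real.sin_pos_of_pos_of_lt_pi hb (by linarith)
  rcases le_total a b with h | h
  · -- d = b - a ≥ 0
    set d := b - a with hd
    have hd0 : 0 ≤ d := by rw [hd]; linarith
    have e : b = a + d := by rw [hd]; ring
    have e2 : a - b = -d := by rw [hd]; ring
    rw [e2, Real.sin_neg]
    have h1 : Real.sin d ≤ d := Real.sin_le hd0
    have h2 : 0 ≤ Real.sin d := Real.sin_nonneg_of_nonneg_of_le_pi hd0 (by linarith)
    have h3 : Real.cos b ≤ Real.cos a :=
      Real.cos_le_cos_of_nonneg_of_le_pi ha.le (by linarith) h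
    nlinarith
  · -- d = a - b, 0 ≤ d < a
    set d := a - b with hd
    have hd0 : 0 ≤ d := by rw [hd]; linarith
    have hda : d < a := by rw [hd]; linarith
    have e : b = a - d := by rw [hd]; ring
    have hcd : 0 < Real.cos d := Real.cos_pos_of_mem_Ioo ⟨by linarith, by linarith⟩
    have hsd : 0 ≤ Real.sin d := Real.sin_nonneg_of_nonneg_of_le_pi hd0 (by linarith)
    -- d cos d ≤ sin d
    have h1 : d * Real.cos d ≤ Real.sin d := by
      have h := Real.le_tan hd0 (by linarith)
      rw [Real.tan_eq_sin_div_cos, le_div_iff₀ hcd] at h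
      exact h
    -- sin d cos a ≤ sin a cos d
    have h2 : 0 ≤ Real.sin a * Real.cos d - Real.cos a * Real.sin d := by
      rw [← Real.sin_sub]
      exact Real.sin_nonneg_of_nonneg_of_le_pi (by linarith) (by linarith)
    rw [e, Real.cos_sub]
    have hsq := Real.sin_sq_add_cos_sq d
    -- (cos a cos d + sin a sin d) sin d ≥ d cos a
    have h3 : d * Real.cos a * Real.cos d ≤
        (Real.cos a * Real.cos d + Real.sin a * Real.sin d) * Real.sin d * Real.cos d := by
      have h4 : Real.cos a * Real.sin d ≤ 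
          (Real.cos a * Real.cos d + Real.sin a * Real.sin d) * Real.sin d * Real.cos d := by
        have h5 : (Real.cos a * Real.cos d + Real.sin a * Real.sin d) * Real.sin d * Real.cos d
            - Real.cos a * Real.sin d
            = Real.sin d ^ 2 * (Real.sin a * Real.cos d - Real.cos a * Real.sin d) := by
          have : Real.cos d ^ 2 = 1 - Real.sin d ^ 2 := by linarith
          linear_combination (Real.cos a * Real.sin d) * this
        nlinarith [sq_nonneg (Real.sin d)]
      nlinarith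
    have h6 : d * Real.cos a ≤
        (Real.cos a * Real.cos d + Real.sin a * Real.sin d) * Real.sin d := by
      by_contra hc
      push Not at hc
      nlinarith
    exact h6

/-- Strict version. -/
lemma tangent_lt {a b : ℝ} (ha : 0 < a) (ha' : a < Real.pi / 2) (hb : 0 < b)
    (hab : b < a) :
    (a - b) * Real.cos a < Real.cos b * Real.sin (a - b) := by
  have hca : 0 < Real.cos a := Real.cos_pos_of_mem_Ioo ⟨by linarith, ha'⟩
  have hsa : 0 < Real.sin a := Real.sin_pos_of_pos_of_lt_pi ha (by linarith)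
  set d := a - b with hd
  have hd0 : 0 < d := by rw [hd]; linarith
  have hda : d < a := by rw [hd]; linarith
  have e : b = a - d := by rw [hd]; ring
  have hcd : 0 < Real.cos d := Real.cos_pos_of_mem_Ioo ⟨by linarith, by linarith⟩
  have hsd : 0 < Real.sin d := Real.sin_pos_of_pos_of_lt_pi hd0 (by linarith)
  have h1 : d * Real.cos d < Real.sin d := by
    have h := Real.lt_tan hd0 (by linarith)
    rw [Real.tan_eq_sin_div_cos, lt_div_iff₀ hcd] at h
    exact h
  have h2 : 0 ≤ Real.sin a * Real.cos d - Real.cos a * Real.sin d := by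
    rw [← Real.sin_sub]
    exact Real.sin_nonneg_of_nonneg_of_le_pi (by linarith) (by linarith)
  rw [e, Real.cos_sub]
  have hsq := Real.sin_sq_add_cos_sq d
  have h3 : d * Real.cos a * Real.cos d <
      (Real.cos a * Real.cos d + Real.sin a * Real.sin d) * Real.sin d * Real.cos d := by
    have h4 : Real.cos a * Real.sin d ≤ 
        (Real.cos a * Real.cos d + Real.sin a * Real.sin d) * Real.sin d * Real.cos d := by
      have h5 : (Real.cos a * Real.cos d + Real.sin a * Real.sin d) * Real.sin d * Real.cos d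
          - Real.cos a * Real.sin d
          = Real.sin d ^ 2 * (Real.sin a * Real.cos d - Real.cos a * Real.sin d) := by
        have : Real.cos d ^ 2 = 1 - Real.sin d ^ 2 := by linarith
        linear_combination (Real.cos a * Real.sin d) * this
      nlinarith [sq_nonneg (Real.sin d)]
    nlinarith
  by_contra hc
  push Not at hc
  nlinarith

lemma m_pos {n : ℕ} (hn : 1 ≤ n) {t : ℝ} (ht : 0 < t) : 0 < m n t := by
  unfold m
  have hn' : (0 : ℝ) < n := by exact_mod_cast hn
  apply div_pos _ (by positivity)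
  apply sum_pos
  · intro j _
    exact Real.arctan_pos.2 (mul_pos (x_pos j) ht)
  · exact ⟨0, by simp; omega⟩

lemma m_lt {n : ℕ} (hn : 1 ≤ n) (t : ℝ) : m n t < Real.pi / 2 := by
  unfold m
  have hn' : (0 : ℝ) < n := by exact_mod_cast hn
  rw [div_lt_iff₀ (by positivity)]
  have h : ∑ j ∈ range (2 * n), Real.arctan (x j * t) < ∑ j ∈ range (2 * n), Real.pi / 2 := by
    apply sum_lt_sum_of_nonempty ⟨0, by simp; omega⟩
    intro j _
    exact Real.arctan_lt_pi_div_two _
  rw [sum_const, card_range, nsmul_eq_mul] at h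
  push_cast at h
  linarith

lemma hasDerivAt_m (n : ℕ) (t : ℝ) :
    HasDerivAt (m n) ((∑ j ∈ range (2 * n), x j / (1 + (x j * t) ^ 2)) / (2 * n)) t := by
  unfold m
  apply HasDerivAt.div_const
  apply HasDerivAt.fun_sum
  intro j _
  have h0 : HasDerivAt (fun t : ℝ => x j * t) (x j) t := by
    simpa using (hasDerivAt_id t).const_mul (x j)
  have e : x j / (1 + (x j * t) ^ 2) = 1 / (1 + (x j * t) ^ 2) * x j := by ring
  rw [e]
  exact h0.arctan

lemma hasDerivAt_Lg (n : ℕ) (t : ℝ) :
    HasDerivAt (Lg n) ((∑ j ∈ range (2 * n), x j ^ 2 * t / (1 + (x j * t) ^ 2)) / (2 * n)) t := by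
  unfold Lg
  apply HasDerivAt.div_const
  apply HasDerivAt.fun_sum
  intro j _
  have h0 : (1 + (x j * t) ^ 2) ≠ 0 := by positivity
  have h1 : HasDerivAt (fun t : ℝ => 1 + (x j * t) ^ 2) (2 * (x j * t) * x j) t := by
    have h00 : HasDerivAt (fun t : ℝ => x j * t) (x j) t := by
      simpa using (hasDerivAt_id t).const_mul (x j)
    have := (h00.fun_pow 2).const_add 1
    simpa using this
  have h2 := (h1.log h0).div_const 2
  have e : x j ^ 2 * t / (1 + (x j * t) ^ 2) =
      2 * (x j * t) * x j / (1 + (x j * t) ^ 2) / 2 := by field_simp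
  rw [e]
  exact h2

/-- The function which decreases. -/
noncomputable def Phi (n : ℕ) (t : ℝ) : ℝ := Lg n t + Real.log (Real.sin (m n t)) - Real.log t

lemma sin_m_pos {n : ℕ} (hn : 1 ≤ n) {t : ℝ} (ht : 0 < t) : 0 < Real.sin (m n t) :=
  Real.sin_pos_of_pos_of_lt_pi (m_pos hn ht) (by linarith [m_lt hn t, Real.pi_pos])

lemma hasDerivAt_Phi {n : ℕ} (hn : 1 ≤ n) {t : ℝ} (ht : 0 < t) :
    HasDerivAt (Phi n) ((∑ j ∈ range (2 * n), x j ^ 2 * t / (1 + (x j * t) ^ 2)) / (2 * n)
      + Real.cos (m n t) * ((∑ j ∈ range (2 * n), x j / (1 + (x j * t) ^ 2)) / (2 * n))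
        / Real.sin (m n t) - t⁻¹) t := by
  have h1 := ((hasDerivAt_m n t).sin.log (sin_m_pos hn ht).ne')
  exact ((hasDerivAt_Lg n t).add h1).sub (Real.hasDerivAt_log ht.ne')

lemma key_sum {n : ℕ} (hn : 1 ≤ n) {t : ℝ} (ht : 0 < t) :
    0 < ∑ j ∈ range (2 * n), Real.cos (Real.arctan (x j * t)) *
      Real.sin (m n t - Real.arctan (x j * t)) := by
  have hn' : (0 : ℝ) < n := by exact_mod_cast hn
  set M := m n t with hM
  have hMpos : 0 < M := m_pos hn ht
  have hMlt : M < Real.pi / 2 := m_lt hn t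
  have hpos : ∀ j, 0 < Real.arctan (x j * t) := fun j =>
    Real.arctan_pos.2 (mul_pos (x_pos j) ht)
  have hlt : ∀ j, Real.arctan (x j * t) < Real.pi / 2 := fun j => Real.arctan_lt_pi_div_two _
  have hsum : ∑ j ∈ range (2 * n), Real.arctan (x j * t) = M * (2 * n) := by
    rw [hM]; unfold m; rw [div_mul_cancel₀ _ (by positivity)]
  have h0 : ∑ j ∈ range (2 * n), (M - Real.arctan (x j * t)) * Real.cos M = 0 := by
    rw [← sum_mul, sum_sub_distrib, hsum, sum_const, card_range, nsmul_eq_mul]
    push_cast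
    ring
  have h00 : Real.arctan (x 0 * t) < M := by
    -- the smallest is below the mean
    by_contra hc
    push Not at hc
    have h1 : ∑ j ∈ range (2 * n), M < ∑ j ∈ range (2 * n), Real.arctan (x j * t) := by
      apply sum_lt_sum
      · intro j _
        refine hc.trans ?_
        apply Real.arctan_mono
        apply mul_le_mul_of_nonneg_right _ ht.le
        unfold x
        simp
      · refine ⟨1, by simp; omega, lt_of_le_of_lt hc ?_⟩
        apply Real.arctan_strictMono
        apply mul_lt_mul_of_pos_right _ ht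
        unfold x
        norm_num
    rw [hsum, sum_const, card_range, nsmul_eq_mul] at h1
    push_cast at h1
    linarith
  rw [← h0]
  apply sum_lt_sum
  · intro j _
    exact tangent hMpos hMlt (hpos j) (hlt j)
  · exact ⟨0, by simp; omega, tangent_lt hMpos hMlt (hpos 0) h00⟩

lemma deriv_Phi_neg {n : ℕ} (hn : 1 ≤ n) {t : ℝ} (ht : 0 < t) : deriv (Phi n) t < 0 := by
  have hn' : (0 : ℝ) < n := by exact_mod_cast hn
  rw [(hasDerivAt_Phi hn ht).deriv]
  have hs := sin_m_pos hn ht
  have hk := key_sum hn ht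
  set M := m n t with hM
  -- multiply by 2 n t sin M
  have hid : ((∑ j ∈ range (2 * n), x j ^ 2 * t / (1 + (x j * t) ^ 2)) / (2 * n)
      + Real.cos M * ((∑ j ∈ range (2 * n), x j / (1 + (x j * t) ^ 2)) / (2 * n))
        / Real.sin M - t⁻¹) * (2 * n * t * Real.sin M) =
      - ∑ j ∈ range (2 * n), Real.cos (Real.arctan (x j * t)) *
      Real.sin (M - Real.arctan (x j * t)) := by
    have e1 : ∀ j ∈ range (2 * n), Real.cos (Real.arctan (x j * t)) *
      Real.sin (M - Real.arctan (x j * t)) =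
      Real.sin M * (1 - t * (x j ^ 2 * t / (1 + (x j * t) ^ 2)))
        - Real.cos M * t * (x j / (1 + (x j * t) ^ 2)) := by
      intro j _
      rw [Real.sin_sub, Real.sin_arctan, Real.cos_arctan]
      have h1 : (0 : ℝ) < 1 + (x j * t) ^ 2 := by positivity
      have h2 := Real.sqrt_pos.2 h1
      have h3 := Real.mul_self_sqrt h1.le
      have h4 : 1 / Real.sqrt (1 + (x j * t) ^ 2) * (1 / Real.sqrt (1 + (x j * t) ^ 2)) =
        1 / (1 + (x j * t) ^ 2) := by
        rw [div_mul_div_comm, h3]; norm_num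
      have h5 : 1 - t * (x j ^ 2 * t / (1 + (x j * t) ^ 2)) = 1 / (1 + (x j * t) ^ 2) := by
        field_simp
        ring
      rw [h5]
      linear_combination (Real.sin M - Real.cos M * (x j * t)) * h4
    rw [sum_congr rfl e1, sum_sub_distrib, ← mul_sum, ← mul_sum, sum_sub_distrib, ← mul_sum,
      sum_const, card_range]
    have : (2 * n) • (1 : ℝ) = 2 * (n : ℝ) := by simp
    rw [this]
    field_simp
    ring
  have hpos : 0 < 2 * (n : ℝ) * t * Real.sin M := by positivity
  by_contra hc
  push Not at hc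
  have := mul_nonneg hc hpos.le
  rw [hid] at this
  linarith

lemma Phi_strictAnti {n : ℕ} (hn : 1 ≤ n) : StrictAntiOn (Phi n) (Set.Ioi 0) := by
  apply strictAntiOn_of_deriv_neg (convex_Ioi 0)
  · intro t ht
    exact (hasDerivAt_Phi hn ht).continuousAt.continuousWithinAt
  · intro t ht
    rw [interior_Ioi] at ht
    exact deriv_Phi_neg hn ht

open Filter Topology in
lemma tendsto_ratio {n : ℕ} (hn : 1 ≤ n) :
    Tendsto (fun t : ℝ => Real.exp (Lg n t) * (t⁻¹ * Real.sin (m n t))) (𝓝[>] 0) (𝓝 n) := by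
  have hn' : (0 : ℝ) < n := by exact_mod_cast hn
  have h1 : Tendsto (fun t : ℝ => Real.exp (Lg n t)) (𝓝[>] 0) (𝓝 1) := by
    have hc : ContinuousAt (fun t : ℝ => Real.exp (Lg n t)) 0 :=
      (hasDerivAt_Lg n 0).continuousAt.rexp
    have h0 : Real.exp (Lg n 0) = 1 := by simp [Lg]
    have := hc.tendsto
    rw [h0] at this
    exact this.mono_left nhdsWithin_le_nhds
  have h2 : HasDerivAt (fun t : ℝ => Real.sin (m n t)) (n : ℝ) 0 := by
    have h := (hasDerivAt_m n 0).sin
    have h0 : m n 0 = 0 := by simp [m]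
    rw [h0, Real.cos_zero, one_mul] at h
    convert h using 1
    simp only [mul_zero, ne_eq, OfNat.ofNat_ne_zero, not_false_eq_true, zero_pow, add_zero, div_one]
    rw [sum_x]
    push_cast
    field_simp
  have h3 := h2.tendsto_slope_zero_right
  have h0 : Real.sin (m n 0) = 0 := by simp [m]
  simp only [zero_add, h0, sub_zero, smul_eq_mul] at h3
  simpa using h1.mul h3

theorem upper {n : ℕ} (hn : 1 ≤ n) {t : ℝ} (ht : 0 < t) :
    Real.exp (Lg n t) * Real.sin (m n t) < n * t := by
  have hexp : ∀ s : ℝ, 0 < s → Real.exp (Phi n s) = Real.exp (Lg n s) * (s⁻¹ * Real.sin (m n s)) := by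
    intro s hs
    unfold Phi
    rw [Real.exp_sub, Real.exp_add, Real.exp_log (sin_m_pos hn hs), Real.exp_log hs]
    field_simp
  have h1 : Real.exp (Phi n t) < Real.exp (Phi n (t / 2)) := by
    apply Real.exp_lt_exp.2
    exact Phi_strictAnti hn (Set.mem_Ioi.2 (by linarith)) (Set.mem_Ioi.2 ht) (by linarith)
  have h2 : Real.exp (Phi n (t / 2)) ≤ n := by
    apply ge_of_tendsto (tendsto_ratio hn)
    have : Set.Ioo (0 : ℝ) (t / 2) ∈ nhdsWithin (0 : ℝ) (Set.Ioi 0) :=
      Ioo_mem_nhdsGT (by linarith)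
    filter_upwards [this] with s hs
    rw [← hexp s hs.1]
    apply Real.exp_le_exp.2
    exact (Phi_strictAnti hn (Set.mem_Ioi.2 hs.1) (Set.mem_Ioi.2 (by linarith)) hs.2).le
  rw [hexp t ht] at h1
  have h3 := lt_of_lt_of_le h1 h2
  have h4 : Real.exp (Lg n t) * Real.sin (m n t) =
    Real.exp (Lg n t) * (t⁻¹ * Real.sin (m n t)) * t := by field_simp
  rw [h4]
  exact mul_lt_mul_of_pos_right h3 ht

end Pool.Agent.X216.CN
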